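import Pool.Agent.ZES.StmtsG

/-!
ZES, row FLM: finite-dimensional spaces of functions are closed under pointwise limits.
-/

set_option autoImplicit false

namespace Pool.Agent.ZES.H65

open Pool.Agent.ZES

theorem flm : FlmStmt := by
  intro V S hS u f hu hf
  have hFD : FiniteDimensional ℂ S := hS
  have hc : IsClosed (S : Set (V → ℂ)) := Submodule.closed_of_finiteDimensional S
  have ht : Filter.Tendsto u Filter.atTop (nhds f) := tendsto_pi_nhds.2 hf
  exact hc.mem_of_tendsto ht (Filter.Eventually.of_forall hu)

end Pool.Agent.ZES.H65
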