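import Pool.Agent.ZES.StmtsB

/-!
Squad ZES, row HDT (helper65): the determinant of the Hefer coefficients.
-/

set_option autoImplicit false

namespace Pool.Agent.ZES.H65

open scoped BigOperators InnerProductSpace
open Pool.Agent.ZES

theorem hdt (_h1 : AlnStmt) (h2 : HfaStmt) (h3 : HfbStmt) : HdtStmt := by
  intro V _ _ _ W L κ a C r hr ha G hd h0 hper hgr hjac
  subst hr
  obtain ⟨b, hb⟩ : ∃ b : OrthonormalBasis (Fin (Module.finrank ℂ ↥Wᗮ)) ℂ ↥Wᗮ, True :=
    ⟨stdOrthonormalBasis ℂ ↥Wᗮ, trivial⟩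
  -- the matrix
  obtain ⟨M, hM⟩ : ∃ M : V → Matrix (Fin (Module.finrank ℂ ↥Wᗮ)) (Fin (Module.finrank ℂ ↥Wᗮ)) ℂ,
      ∀ x i l, M x i l = hh (G i) W ((b l : ↥Wᗮ) : V) x :=
    ⟨fun x => Matrix.of fun i l => hh (G i) W ((b l : ↥Wᗮ) : V) x, fun x i l => rfl⟩
  have hfa := fun i => h2 V W (G i) (hd i) (h0 i)
  -- linearity
  have hlin : ∀ (i : Fin (Module.finrank ℂ ↥Wᗮ)) (x : V)
      (c : Fin (Module.finrank ℂ ↥Wᗮ) → ℂ),
      hh (G i) W (∑ l, c l • ((b l : ↥Wᗮ) : V)) x = ∑ l, c l * M x i l := by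
    intro i x c
    obtain ⟨T, hT⟩ : ∃ T : V →ₗ[ℂ] ℂ, ∀ v, T v = hh (G i) W v x :=
      ⟨{ toFun := fun v => hh (G i) W v x
         map_add' := fun u v => ((hfa i).2.1 u v x 0).1
         map_smul' := fun c v => by
          simpa using ((hfa i).2.1 0 v x c).2 }, fun v => rfl⟩
    rw [← hT, map_sum]
    refine Finset.sum_congr rfl fun l _ => ?_
    rw [map_smul, hT, hM, smul_eq_mul]
  have hmul : ∀ (x : V) (c : Fin (Module.finrank ℂ ↥Wᗮ) → ℂ)
      (i : Fin (Module.finrank ℂ ↥Wᗮ)),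
      (M x).mulVec c i = hh (G i) W (∑ l, c l • ((b l : ↥Wᗮ) : V)) x := by
    intro x c i
    rw [hlin]
    show ∑ l, M x i l * c l = _
    exact Finset.sum_congr rfl fun l _ => mul_comm _ _
  have hentry : ∀ i l, Differentiable ℂ fun x => M x i l := by
    intro i l
    have : (fun x => M x i l) = hh (G i) W ((b l : ↥Wᗮ) : V) := by
      funext x; exact hM x i l
    rw [this]
    exact (hfa i).1 _
  refine ⟨fun x => (M x).det,
    ((Module.finrank ℂ ↥Wᗮ).factorial : ℝ) * (C * Real.exp (a / 2)) ^ (Module.finrank ℂ ↥Wᗮ),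
    (Module.finrank ℂ ↥Wᗮ) * a, ?_, ?_, ?_, ?_, ?_, ?_⟩
  · -- differentiable
    have : (fun x => (M x).det) = fun x => ∑ σ : Equiv.Perm (Fin (Module.finrank ℂ ↥Wᗮ)),
        ((Equiv.Perm.sign σ : ℤ) : ℂ) * ∏ i, M x (σ i) i := by
      funext x
      exact Matrix.det_apply' _
    rw [this]
    refine Differentiable.fun_sum fun σ _ => ?_
    refine Differentiable.const_mul ?_ _
    intro x
    exact (HasFDerivAt.finsetProd (fun i _ => (hentry (σ i) i x).hasFDerivAt)).differentiableAt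
  · -- nonzero at 0
    intro hz
    obtain ⟨c, hc0, hc⟩ := Matrix.exists_mulVec_eq_zero_iff.mpr hz
    have hsum : ∑ l, c l • ((b l : ↥Wᗮ) : V) = ((∑ l, c l • b l : ↥Wᗮ) : V) := by
      simp
    have hv := hjac (∑ l, c l • ((b l : ↥Wᗮ) : V)) (by rw [hsum]; exact Subtype.mem _) (by
      intro i
      rw [← (hfa i).2.2.1, ← hmul, hc]
      rfl)
    rw [hsum] at hv
    have hv2 : (∑ l, c l • b l : ↥Wᗮ) = 0 := by
      exact_mod_cast hv
    have hli := b.toBasis.linearIndependent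
    rw [Fintype.linearIndependent_iff] at hli
    apply hc0
    funext l
    exact hli c (by simpa using hv2) l
  · exact mul_nonneg (Nat.cast_nonneg _) ha
  · -- zeros
    intro x hx hG
    show (M x).det = 0
    rw [← Matrix.exists_mulVec_eq_zero_iff]
    have hmem : Wᗮ.starProjection x ∈ Wᗮ := Submodule.starProjection_apply_mem _ _
    refine ⟨fun l => b.repr ⟨Wᗮ.starProjection x, hmem⟩ l, ?_, ?_⟩
    · intro hc
      have h5 : (⟨Wᗮ.starProjection x, hmem⟩ : ↥Wᗮ) = 0 := by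
        rw [← b.sum_repr ⟨Wᗮ.starProjection x, hmem⟩]
        refine Finset.sum_eq_zero fun l _ => ?_
        have := congrFun hc l
        have h6 : b.repr ⟨Wᗮ.starProjection x, hmem⟩ l = 0 := this
        rw [h6, zero_smul]
      have h7 : Wᗮ.starProjection x = 0 := congrArg Subtype.val h5
      apply hx
      rw [Submodule.starProjection_orthogonal] at h7
      have h8 : x - W.starProjection x = 0 := by simpa using h7
      rw [sub_eq_zero] at h8
      rw [h8]
      exact Submodule.starProjection_apply_mem _ _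
    · funext i
      rw [hmul]
      have h9 : ∑ l, b.repr ⟨Wᗮ.starProjection x, hmem⟩ l • ((b l : ↥Wᗮ) : V)
          = Wᗮ.starProjection x := by
        have := congrArg Subtype.val (b.sum_repr ⟨Wᗮ.starProjection x, hmem⟩)
        simpa using this
      rw [h9, (hfa i).2.2.2 x]
      exact hG i
  · -- periods
    intro ω hω hωW x
    show (M (x + ω)).det = _ * (M x).det
    have hsm : M (x + ω) = (κ ω * al a ω x) • M x := by
      ext i l
      rw [Matrix.smul_apply, smul_eq_mul, hM, hM]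
      exact (h3 V W (G i) a ha (hd i)).2 ω hωW (κ ω) (fun y => hper i ω hω hωW y) _
        (Subtype.mem _) x
    rw [hsm, Matrix.det_smul, Fintype.card_fin, mul_pow]
    have hal : al a ω x ^ (Module.finrank ℂ ↥Wᗮ) = al ((Module.finrank ℂ ↥Wᗮ) * a) ω x := by
      unfold al
      rw [← Complex.exp_nat_mul]
      congr 1
      push_cast
      ring
    rw [hal]
  · -- growth
    intro x
    have hb1 : ∀ i l, ‖M x i l‖ ≤
        C * Real.exp (a / 2) * Real.exp (a / 2 * ‖x‖ ^ 2 + a * ‖x‖) := by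
      intro i l
      have h10 := (h3 V W (G i) a ha (hd i)).1 C (hgr i) ((b l : ↥Wᗮ) : V) x
      have h11 : ‖((b l : ↥Wᗮ) : V)‖ = 1 := by
        have h16 : ‖b l‖ = 1 := b.orthonormal.1 l
        rw [← h16]
        rfl
      rw [h11, mul_one] at h10
      rw [hM]
      exact h10
    have h12 : ‖(M x).det‖ ≤ ((Module.finrank ℂ ↥Wᗮ).factorial : ℝ) *
        (C * Real.exp (a / 2) * Real.exp (a / 2 * ‖x‖ ^ 2 + a * ‖x‖))
          ^ (Module.finrank ℂ ↥Wᗮ) := by
      rw [Matrix.det_apply']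
      refine (norm_sum_le _ _).trans ?_
      have h13 : ∀ σ ∈ (Finset.univ : Finset (Equiv.Perm (Fin (Module.finrank ℂ ↥Wᗮ)))),
          ‖((Equiv.Perm.sign σ : ℤ) : ℂ) * ∏ i, M x (σ i) i‖ ≤
          (C * Real.exp (a / 2) * Real.exp (a / 2 * ‖x‖ ^ 2 + a * ‖x‖))
            ^ (Module.finrank ℂ ↥Wᗮ) := by
        intro σ _
        rw [norm_mul, norm_prod]
        have h14 : ‖((Equiv.Perm.sign σ : ℤ) : ℂ)‖ = 1 := by
          rcases Int.units_eq_one_or (Equiv.Perm.sign σ) with h | h <;> rw [h] <;> simp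
        rw [h14, one_mul]
        have h15 : ∏ i, ‖M x (σ i) i‖ ≤
            ∏ _i : Fin (Module.finrank ℂ ↥Wᗮ),
              (C * Real.exp (a / 2) * Real.exp (a / 2 * ‖x‖ ^ 2 + a * ‖x‖)) :=
          Finset.prod_le_prod (fun i _ => norm_nonneg _) fun i _ => hb1 _ _
        simpa using h15
      refine (Finset.sum_le_card_nsmul _ _ _ h13).trans (le_of_eq ?_)
      rw [Finset.card_univ, Fintype.card_perm, Fintype.card_fin, nsmul_eq_mul]
    refine h12.trans (le_of_eq ?_)
    rw [mul_pow, ← Real.exp_nat_mul, ← mul_assoc]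
    congr 2
    ring

end Pool.Agent.ZES.H65
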